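import Pool.Agent.R721.PN.Tab

/-!
The densities of zeros of type I and of type II in the character table of `S_n` both converge, to
`0`; more precisely they are at most `C / log n`.

Idea. (1) Local regularity of the partition numbers, by the saddle point method (the Fourier integral
of `∏ (1 - z ^ j)⁻¹` on a circle of radius `exp (-x)`, `x ≍ n ^ (-1/2)`): there is a constant `C` with
`p(m) ≤ C exp (x (m - n)) p(n)` for all `m ≤ 3 n`. (2) Moving the top beads on two different runners
of the abacus of a `t`-core gives `binom(t, 2) c_t(n) ≤ p(n + 2 t)`. (3) The number of partitions of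
`n` with a part `t` is at most `p(n - t)`. Summing over `t`, with `c_t(n) ≤ c_(l t)(n)` for small `t`,
gives `z_II(S_n) ≤ C / log n`.
-/

set_option autoImplicit false

namespace Pool.Agent.Results.MP_b87613_al.ClassicalDensities

open Filter Topology
open Pool.Agent.H581R3.Core Pool.Agent.R721.PN

/-- `0 ≤ z_I(S_n) ≤ z_II(S_n) ≤ C / log n`; the limits of `z_I(S_n)` and `z_II(S_n)` exist and are
`0`; so the three limits of the question exist if and only if the density `z(S_n)` of all zeros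
converges. -/
theorem result :
    (∃ C : ℝ, ∀ n : ℕ, 2 ≤ n → 0 ≤ zI n ∧ zI n ≤ zII n ∧ zII n ≤ C / Real.log n) ∧
    Tendsto zI atTop (𝓝 0) ∧ Tendsto zII atTop (𝓝 0) ∧
    (((∃ a : ℝ, Tendsto zI atTop (𝓝 a)) ∧ (∃ b : ℝ, Tendsto zII atTop (𝓝 b)) ∧
        (∃ c : ℝ, Tendsto zTable atTop (𝓝 c))) ↔ ∃ c : ℝ, Tendsto zTable atTop (𝓝 c)) := by
  refine ⟨?_, tendsto_zI, tendsto_zII, ?_⟩
  · obtain ⟨C, hC⟩ := zII_bound
    exact ⟨C, fun n hn => ⟨zI_nonneg n, zI_le_zII n (by omega), hC n hn⟩⟩
  · exact ⟨fun h => h.2.2, fun h => ⟨⟨0, tendsto_zI⟩, ⟨0, tendsto_zII⟩, h⟩⟩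

end Pool.Agent.Results.MP_b87613_al.ClassicalDensities
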